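import Pool.Agent.H45.Nev.Stmts
import Pool.Agent.H45.Nev.Disc
import Pool.Agent.H45.Nev.PlaneEst
import Pool.Agent.H95.Nev.AreaLemma

/-!
# The Nevanlinna characteristic tends to infinity (MP_343136_an, part Q5b)
-/

open MeasureTheory Set Metric Filter Topology ProbabilityTheory
open scoped ContDiff ENNReal Manifold

set_option linter.unusedSectionVars false

namespace Pool.Agent.H63.Nev

open Pool.Agent.H45.Nev

/-- the double integral for bounded functions -/
lemma nev_eq_of_bdd {g : ℂ → ℝ} (hg : Measurable g) {s K : ℝ} (hs1 : s < 1)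
    (hK : ∀ ξ ∈ ball (0 : ℂ) s, |g ξ| ≤ K) :
    IntegrableOn (fun ξ : ℂ => Real.log (s / ‖ξ‖) * g ξ) (ball 0 s) ∧
    nev g s = ∫ ξ in ball (0 : ℂ) s, Real.log (s / ‖ξ‖) * g ξ := by
  have h1 : IntegrableOn (fun ξ : ℂ => Real.log (s / ‖ξ‖) * g ξ) (ball 0 s) := by
    apply kernel_integrable_bdd hs1 hg (K := K)
    filter_upwards [ae_restrict_mem measurableSet_ball] with ξ hξ
    exact hK ξ hξ
  refine ⟨h1, (nev_eq_kernel g hg s ?_).2⟩
  have h2 := h1.2
  unfold HasFiniteIntegral at h2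
  refine lt_of_le_of_lt (le_of_eq ?_) h2
  apply setLIntegral_congr_fun measurableSet_ball
  intro ξ hξ
  simp only [enorm_mul]
  rw [Real.enorm_eq_ofReal (kernel_nonneg hξ)]

/-- from unboundedness to the limit -/
lemma tendsto_of_unbounded {N : ℝ → ℝ} (hmono : ∀ s t, 0 < s → s ≤ t → t < 1 → N s ≤ N t)
    (h : ¬ ∃ C : ℝ, ∀ s ∈ Ioo (0 : ℝ) 1, N s ≤ C) : Tendsto N (𝓝[<] 1) atTop := by
  rw [Filter.tendsto_atTop]
  intro C
  push Not at h
  obtain ⟨s, hs, hsC⟩ := h C
  filter_upwards [Ioo_mem_nhdsLT hs.2] with t ht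
  exact hsC.le.trans (hmono s t hs.1 ht.1.le ht.2)

variable {M : Type*} [TopologicalSpace M] [T2Space M] [MeasurableSpace M] [BorelSpace M]
  [Nonempty M]
  {Y : Type*} [NormedAddCommGroup Y] [NormedSpace ℝ Y] [FiniteDimensional ℝ Y]
  [MeasurableSpace Y] [BorelSpace Y]

open Classical in
lemma unbounded_disc (Λ : Lam M Y) (μ : Measure M) [IsFiniteMeasure μ] (TS : TestSys Λ μ)
    (harea : AreaStmt Λ) (nk : ℕ → ℕ) (hnk : ∀ k, k ≤ nk k)
    {φ : ℂ → M} {σ : ℂ → ℝ} (hu : Λ.IsUniv φ σ)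
    (hA : ∀ᶠ k : ℕ in atTop, ∀ (φ' : ℂ → M) (σ' : ℂ → ℝ), Λ.IsDisc φ' σ' → φ' 0 = φ 0 →
        ∀ s ∈ Ioo (0 : ℝ) 1, ∫ ξ in ball (0 : ℂ) s, Real.log (s / ‖ξ‖) *
          (σ' ξ * (|TS.L (TS.χ (nk k)) (φ' ξ)| - (1 / 2) ^ k)) ≤ 0) :
    Tendsto (fun s : ℝ => ∫ ξ in ball (0 : ℂ) s, Real.log (s / ‖ξ‖) * σ ξ) (𝓝[<] 1) atTop := by
  have hd := hu.toIsDisc
  have hπ := Real.pi_pos
  -- measurable versions
  set φ' : ℂ → M := fun ξ => if ξ ∈ ball (0 : ℂ) 1 then φ ξ else φ 0 with hφ'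
  set σ' : ℂ → ℝ := fun ξ => if ξ ∈ ball (0 : ℂ) 1 then σ ξ else 0 with hσ'
  have hφe : EqOn φ' φ (ball 0 1) := fun ξ hξ => by simp only [hφ']; rw [if_pos hξ]
  have hσe : EqOn σ' σ (ball 0 1) := fun ξ hξ => by simp only [hσ']; rw [if_pos hξ]
  have hφm : Measurable φ' := by
    have : φ' = (ball (0 : ℂ) 1).piecewise φ (fun _ => φ 0) := by
      ext ξ; simp only [hφ', piecewise]
    rw [this]
    exact hd.continuousOn.measurable_piecewise continuousOn_const measurableSet_ball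
  have hσm : Measurable σ' := by
    have : σ' = (ball (0 : ℂ) 1).piecewise σ (fun _ => 0) := by
      ext ξ; simp only [hσ', piecewise]
    rw [this]
    exact hd.continuousOn_σ.measurable_piecewise continuousOn_const measurableSet_ball
  have hd' : Λ.IsDisc φ' σ' := hd.congr hφe hσe
  have h0 : φ' 0 = φ 0 := hφe (mem_ball_self one_pos)
  have hσ0 : ∀ ξ, 0 ≤ σ' ξ := by
    intro ξ
    by_cases h : ξ ∈ ball (0 : ℂ) 1
    · exact (hd'.σ_pos h).le
    · simp only [hσ']; rw [if_neg h]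
  -- the characteristic
  set N : ℝ → ℝ := fun s => ∫ ξ in ball (0 : ℂ) s, Real.log (s / ‖ξ‖) * σ' ξ with hN
  have hNeq : ∀ᶠ s in 𝓝[<] (1 : ℝ), N s =
      ∫ ξ in ball (0 : ℂ) s, Real.log (s / ‖ξ‖) * σ ξ := by
    filter_upwards [self_mem_nhdsWithin] with s hs
    apply setIntegral_congr_fun measurableSet_ball
    intro ξ hξ
    simp only [hσe (ball_subset_ball (le_of_lt hs) hξ)]
  refine Tendsto.congr' hNeq ?_
  have hσint : ∀ s : ℝ, s < 1 → IntegrableOn (fun ξ : ℂ => Real.log (s / ‖ξ‖) * σ' ξ) (ball 0 s) ∧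
      nev σ' s = N s := by
    intro s hs
    obtain ⟨C, hC0, hC⟩ := hd'.σ_bdd hs
    exact nev_eq_of_bdd hσm hs fun ξ hξ => by rw [abs_of_nonneg (hσ0 ξ)]; exact hC ξ hξ
  refine tendsto_of_unbounded ?_ ?_
  · -- monotonicity
    intro s t hs hst ht
    calc N s = ∫ ξ in ball (0 : ℂ) s, Real.log (s / ‖ξ‖) * σ' ξ := rfl
      _ ≤ ∫ ξ in ball (0 : ℂ) s, Real.log (t / ‖ξ‖) * σ' ξ := by
          refine setIntegral_mono_on (hσint s (hst.trans_lt ht)).1
            ((hσint t ht).1.mono_set (ball_subset_ball hst)) measurableSet_ball ?_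
          intro ξ hξ
          by_cases h : ξ = 0
          · simp [h]
          · have h1 : 0 < ‖ξ‖ := norm_pos_iff.2 h
            have := hσ0 ξ
            gcongr
      _ ≤ N t := by
          refine setIntegral_mono_set (hσint t ht).1 ?_ (ball_subset_ball hst).eventuallyLE
          filter_upwards [ae_restrict_mem measurableSet_ball] with ξ hξ
          exact mul_nonneg (kernel_nonneg hξ) (hσ0 ξ)
  · rintro ⟨C, hC⟩
    have hCpos : 0 ≤ C := by
      refine le_trans ?_ (hC (1 / 2) ⟨by norm_num, by norm_num⟩)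
      refine setIntegral_nonneg measurableSet_ball fun ξ hξ => ?_
      exact mul_nonneg (kernel_nonneg hξ) (hσ0 ξ)
    -- choice of `k`
    have hreg : φ 0 ∈ Λ.reg := hd.mem_reg (mem_ball_self one_pos)
    have hlim : Tendsto (fun k => TS.χ (nk k) (φ 0)) atTop (𝓝 1) :=
      (TS.χ_tendsto _ hreg).comp (tendsto_atTop_mono hnk tendsto_id)
    have hpow : Tendsto (fun k : ℕ => (1 / 2 : ℝ) ^ k * C) atTop (𝓝 0) := by
      have := (tendsto_pow_atTop_nhds_zero_of_lt_one (by norm_num : (0 : ℝ) ≤ 1 / 2)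
        (by norm_num)).mul_const C
      simpa using this
    obtain ⟨k, hk1, hk2, hk3⟩ := (hA.and ((hlim.eventually (lt_mem_nhds
      (show (7 / 8 : ℝ) < 1 by norm_num))).and (hpow.eventually (gt_mem_nhds
      (show (0 : ℝ) < 1 / 8 by norm_num))))).exists
    have hmem := TS.χ_mem (nk k)
    obtain ⟨BL, hBL⟩ := TS.L_bdd _ hmem
    have hLm := TS.L_meas _ hmem
    obtain ⟨K, hKc, hKreg, hK0⟩ := TS.χ_supp (nk k)
    obtain ⟨c, hc, hcK⟩ := harea K hKc hKreg
    -- circle averages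
    have havg : ∀ s ∈ Ioo (0 : ℝ) 1,
        3 / 4 ≤ Real.circleAverage (TS.χ (nk k) ∘ φ') 0 s := by
      intro s hs
      have h1 := disc_jensen TS hd' hmem hs.1 hs.2
      obtain ⟨C', hC'0, hC'⟩ := hd'.σ_bdd hs.2
      have hb : ∀ ξ ∈ ball (0 : ℂ) s, |σ' ξ * TS.L (TS.χ (nk k)) (φ' ξ)| ≤ C' * |BL| := by
        intro ξ hξ
        rw [abs_mul, abs_of_nonneg (hσ0 ξ)]
        exact mul_le_mul (hC' ξ hξ) ((hBL _).trans (le_abs_self _)) (abs_nonneg _) hC'0.le
      obtain ⟨i1, e1⟩ := nev_eq_of_bdd (hσm.mul (hLm.comp hφm)) hs.2 hb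
      have hb' : ∀ ξ ∈ ball (0 : ℂ) s, |σ' ξ * (|TS.L (TS.χ (nk k)) (φ' ξ)|)| ≤ C' * |BL| := by
        intro ξ hξ
        have := hb ξ hξ
        rwa [abs_mul, abs_abs, ← abs_mul]
      obtain ⟨i2, e2⟩ := nev_eq_of_bdd (hσm.mul (hLm.comp hφm).abs) hs.2 hb'
      have h2 := hk1 φ' σ' hd' h0 s hs
      have h3 : ∫ ξ in ball (0 : ℂ) s, Real.log (s / ‖ξ‖) *
          (σ' ξ * (|TS.L (TS.χ (nk k)) (φ' ξ)| - (1 / 2) ^ k)) =
          (∫ ξ in ball (0 : ℂ) s, Real.log (s / ‖ξ‖) * (σ' ξ * |TS.L (TS.χ (nk k)) (φ' ξ)|))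
          - (1 / 2) ^ k * N s := by
        have i2' : IntegrableOn (fun ξ : ℂ => Real.log (s / ‖ξ‖) *
            (σ' ξ * |TS.L (TS.χ (nk k)) (φ' ξ)|)) (ball 0 s) := i2
        have i3 : IntegrableOn (fun ξ : ℂ => (1 / 2 : ℝ) ^ k * (Real.log (s / ‖ξ‖) * σ' ξ))
            (ball 0 s) := (hσint s hs.2).1.const_mul _
        rw [hN]
        simp only
        rw [← integral_const_mul, ← integral_sub i2' i3]
        apply setIntegral_congr_fun measurableSet_ball
        intro ξ _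
        simp only
        ring
      rw [h3] at h2
      have h4 : (1 / 2 : ℝ) ^ k * N s ≤ (1 / 2) ^ k * C := by
        have := hC s hs
        gcongr
      have h5 : -(∫ ξ in ball (0 : ℂ) s, Real.log (s / ‖ξ‖) *
            (σ' ξ * |TS.L (TS.χ (nk k)) (φ' ξ)|)) ≤
          ∫ ξ in ball (0 : ℂ) s, Real.log (s / ‖ξ‖) * (σ' ξ * TS.L (TS.χ (nk k)) (φ' ξ)) := by
        rw [← integral_neg]
        refine setIntegral_mono_on i2.neg i1 measurableSet_ball ?_
        intro ξ hξ
        have h6 := kernel_nonneg hξ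
        have h7 := hσ0 ξ
        have h8 := neg_abs_le (TS.L (TS.χ (nk k)) (φ' ξ))
        calc -(Real.log (s / ‖ξ‖) * (σ' ξ * |TS.L (TS.χ (nk k)) (φ' ξ)|))
            = Real.log (s / ‖ξ‖) * (σ' ξ * -|TS.L (TS.χ (nk k)) (φ' ξ)|) := by ring
          _ ≤ _ := by gcongr
      have e1' : nev (fun ξ => σ' ξ * TS.L (TS.χ (nk k)) (φ' ξ)) s =
          ∫ ξ in ball (0 : ℂ) s, Real.log (s / ‖ξ‖) * (σ' ξ * TS.L (TS.χ (nk k)) (φ' ξ)) := e1
      rw [e1', h0] at h1
      have h9 : (1 : ℝ) / (2 * Real.pi) ≤ 1 := by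
        rw [div_le_one (by positivity)]
        linarith [Real.pi_gt_three]
      have h10 : -(1 / 8 : ℝ) ≤ 1 / (2 * Real.pi) *
          ∫ ξ in ball (0 : ℂ) s, Real.log (s / ‖ξ‖) * (σ' ξ * TS.L (TS.χ (nk k)) (φ' ξ)) := by
        have h11 : -(1 / 8 : ℝ) ≤
          ∫ ξ in ball (0 : ℂ) s, Real.log (s / ‖ξ‖) * (σ' ξ * TS.L (TS.χ (nk k)) (φ' ξ)) := by
          linarith
        have h12 : (0 : ℝ) ≤ 1 / (2 * Real.pi) := by positivity
        nlinarith
      linarith
    -- the set `B`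
    set B : Set ℂ := ball (0 : ℂ) 1 ∩ φ' ⁻¹' K with hB
    have hBm : MeasurableSet B := measurableSet_ball.inter (hφm hKc.isClosed.measurableSet)
    have hχc : Measurable (TS.χ (nk k)) := (TS.cont _ hmem).measurable
    refine Pool.Agent.H95.Nev.area_lemma σ' (hd'.continuousOn_σ) (fun z _ => hσ0 z) B hBm c hc
      ?_ ?_ ⟨C, fun s hs => ?_⟩
    · rintro ξ ⟨hξ, hξB⟩
      have h1 := hcK φ σ hu ξ hξ (by rw [← hφe hξ]; exact hξB.2)
      refine h1.trans (le_of_eq ?_)
      apply setLIntegral_congr_fun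
      · refine measurableSet_ball.inter (measurableSet_le ?_ ?_)
        · fun_prop
        · fun_prop
      · intro ζ hζ
        simp only [hσe hζ.1]
    · intro s hs
      have h1 := havg s hs
      rw [Real.circleAverage_def, intervalIntegral.integral_of_le (by positivity),
        integral_Ioc_eq_integral_Ioo, smul_eq_mul] at h1
      set S : Set ℝ := Ioo (0 : ℝ) (2 * Real.pi) ∩ {θ | circleMap 0 s θ ∈ B} with hS
      have hB2 : MeasurableSet {θ | circleMap 0 s θ ∈ B} :=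
        (continuous_circleMap 0 s).measurable hBm
      have hSm : MeasurableSet S := measurableSet_Ioo.inter hB2
      have hIfin : volume (Ioo (0 : ℝ) (2 * Real.pi)) ≠ ⊤ := by
        rw [Real.volume_Ioo]; exact ENNReal.ofReal_ne_top
      have hSfin : volume S ≠ ⊤ :=
        ne_top_of_le_ne_top hIfin (measure_mono inter_subset_left)
      have h2 : ∫ θ in Ioo (0 : ℝ) (2 * Real.pi), (TS.χ (nk k) ∘ φ') (circleMap 0 s θ) ≤
          volume.real S := by
        have h3 : ∫ θ in Ioo (0 : ℝ) (2 * Real.pi),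
            ({θ | circleMap 0 s θ ∈ B}.indicator (fun _ => (1 : ℝ))) θ = volume.real S := by
          rw [integral_indicator hB2, Measure.restrict_restrict hB2, inter_comm,
            integral_const, smul_eq_mul, mul_one, Measure.real, Measure.restrict_apply_univ,
            Measure.real]
        rw [← h3]
        have hm1 : Measurable fun θ : ℝ => (TS.χ (nk k) ∘ φ') (circleMap 0 s θ) :=
          (hχc.comp hφm).comp (continuous_circleMap 0 s).measurable
        refine setIntegral_mono_on ?_ ?_ measurableSet_Ioo ?_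
        · refine Measure.integrableOn_of_bounded (M := 1) hIfin hm1.aestronglyMeasurable ?_
          filter_upwards with θ
          rw [Real.norm_eq_abs, Function.comp_apply, abs_of_nonneg (TS.χ_range _ _).1]
          exact (TS.χ_range _ _).2
        · refine Measure.integrableOn_of_bounded (M := 1) hIfin
            (measurable_const.indicator hB2).aestronglyMeasurable ?_
          filter_upwards with θ
          refine (norm_indicator_le_norm_self _ _).trans ?_
          simp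
        · intro θ _
          by_cases hθ : circleMap 0 s θ ∈ B
          · rw [indicator_of_mem (by exact hθ)]
            exact (TS.χ_range _ _).2
          · rw [indicator_of_notMem (by exact hθ)]
            have h4 : circleMap 0 s θ ∈ ball (0 : ℂ) 1 := by
              rw [mem_ball_zero_iff, norm_circleMap_zero, abs_of_pos hs.1]
              exact hs.2
            have h5 : φ' (circleMap 0 s θ) ∉ K := fun h => hθ ⟨h4, h⟩
            rw [Function.comp_apply, hK0 _ h5]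
      have h3 : Real.pi ≤ volume.real S := by
        have h4 : 3 / 4 * (2 * Real.pi) ≤
            ∫ θ in Ioo (0 : ℝ) (2 * Real.pi), (TS.χ (nk k) ∘ φ') (circleMap 0 s θ) := by
          rw [← div_eq_inv_mul, le_div_iff₀ (by positivity)] at h1
          exact h1
        linarith
      rw [Measure.real] at h3
      exact (ENNReal.ofReal_le_iff_le_toReal hSfin).2 h3
    · rw [(hσint s hs.2).2]
      exact hC s hs

/-- Q5b. The Nevanlinna characteristic tends to infinity. -/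
theorem nev_infinite (Λ : Lam M Y) (μ : Measure M) [IsFiniteMeasure μ] (TS : TestSys Λ μ)
    (hmax : MaxStmt Λ μ) (harea : AreaStmt Λ) : InfStmt Λ μ := by
  have hsub : ∀ k : ℕ, ∃ n, k ≤ n ∧ ∫ x, |TS.L (TS.χ n) x| ∂μ ≤ (1 / 4 : ℝ) ^ k := by
    intro k
    have h1 : ∀ᶠ n in atTop, ∫ x, |TS.L (TS.χ n) x| ∂μ < (1 / 4 : ℝ) ^ k :=
      TS.χ_int.eventually (gt_mem_nhds (by positivity))
    obtain ⟨n, h2, h3⟩ := (h1.and (eventually_ge_atTop k)).exists
    exact ⟨n, h3, h2.le⟩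
  choose nk hnk hint using hsub
  have hfm : ∀ k : ℕ, Measurable fun x => |TS.L (TS.χ (nk k)) x| - (1 / 2 : ℝ) ^ k := fun k =>
    (TS.L_meas _ (TS.χ_mem _)).abs.sub_const _
  have hfb : ∀ k : ℕ, ∃ B, ∀ x, |(|TS.L (TS.χ (nk k)) x|) - (1 / 2 : ℝ) ^ k| ≤ B := by
    intro k
    obtain ⟨B, hB⟩ := TS.L_bdd _ (TS.χ_mem (nk k))
    refine ⟨B + (1 / 2) ^ k, fun x => ?_⟩
    refine (abs_sub _ _).trans ?_
    rw [abs_abs, abs_of_nonneg (by positivity : (0 : ℝ) ≤ (1 / 2) ^ k)]
    linarith [hB x]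
  choose A hAm hA0 hAe using fun k => hmax _ (hfm k) (hfb k)
  have hμA : ∀ k, μ (A k) ≤ ENNReal.ofReal ((1 / 2 : ℝ) ^ k) := by
    intro k
    obtain ⟨B, hB⟩ := TS.L_bdd _ (TS.χ_mem (nk k))
    have hi : Integrable (fun x => |TS.L (TS.χ (nk k)) x|) μ := by
      refine Integrable.of_bound (TS.L_meas _ (TS.χ_mem _)).abs.aestronglyMeasurable B ?_
      filter_upwards with x
      rw [Real.norm_eq_abs, abs_abs]
      exact hB x
    have h1 := hA0 k
    rw [integral_sub hi.integrableOn (integrable_const _).integrableOn, setIntegral_const,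
      smul_eq_mul] at h1
    have h2 : ∫ x in A k, |TS.L (TS.χ (nk k)) x| ∂μ ≤ (1 / 4 : ℝ) ^ k := by
      refine le_trans ?_ (hint k)
      exact setIntegral_le_integral hi (by filter_upwards with x using abs_nonneg _)
    have h3 : μ.real (A k) * (1 / 2 : ℝ) ^ k ≤ (1 / 4 : ℝ) ^ k := by linarith
    have h4 : (1 / 4 : ℝ) ^ k = (1 / 2) ^ k * (1 / 2) ^ k := by
      rw [← mul_pow]; norm_num
    rw [h4] at h3
    have h5 : μ.real (A k) ≤ (1 / 2 : ℝ) ^ k := le_of_mul_le_mul_right h3 (by positivity)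
    rw [Measure.real] at h5
    exact (ENNReal.le_ofReal_iff_toReal_le (measure_ne_top _ _) (by positivity)).2 h5
  have hsum : ∑' k, μ (A k) ≠ ⊤ := by
    refine ne_top_of_le_ne_top ?_ (ENNReal.tsum_le_tsum hμA)
    have hs : Summable fun k : ℕ => (1 / 2 : ℝ) ^ k :=
      summable_geometric_of_lt_one (by norm_num) (by norm_num)
    rw [← ENNReal.ofReal_tsum_of_nonneg (fun k => by positivity) hs]
    exact ENNReal.ofReal_ne_top
  have hBC := ae_eventually_notMem hsum
  unfold InfStmt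
  filter_upwards [hBC, ae_all_iff.2 hAe] with a ha1 ha2
  intro φ σ hu hφ0
  refine unbounded_disc Λ μ TS harea nk hnk hu ?_
  filter_upwards [ha1] with k hk
  intro φ' σ' hd' h0' s hs
  exact ha2 k hk φ' σ' hd' (h0'.trans hφ0) s hs

end Pool.Agent.H63.Nev
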