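import Pool.Agent.H45.Nev.Stmts
import Pool.Agent.H45.Nev.Disc
import Pool.Agent.H38.Nev.Plane

/-!
# Area of hyperbolic balls in universal discs (MP_343136_an, part Q5a)
-/

open MeasureTheory Set Metric Filter Topology ProbabilityTheory
open scoped ContDiff ENNReal Manifold

set_option linter.unusedSectionVars false

namespace Pool.Agent.H63.Nev

open Pool.Agent.H45.Nev

/-- the pseudohyperbolic ball of radius `1/2` -/
def hypBall (ξ : ℂ) : Set ℂ :=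
  ball (0 : ℂ) 1 ∩ {ζ | ‖ζ - ξ‖ ≤ 1 / 2 * ‖1 - (starRingEnd ℂ) ξ * ζ‖}

lemma normSq_identity (w ξ : ℂ) :
    ‖1 - (starRingEnd ℂ) ξ * w‖ ^ 2 - ‖w - ξ‖ ^ 2 = (1 - ‖ξ‖ ^ 2) * (1 - ‖w‖ ^ 2) := by
  rw [← Complex.normSq_eq_norm_sq, ← Complex.normSq_eq_norm_sq, ← Complex.normSq_eq_norm_sq,
    ← Complex.normSq_eq_norm_sq]
  simp only [Complex.normSq_apply, Complex.sub_re, Complex.sub_im, Complex.mul_re, Complex.mul_im,
    Complex.conj_re, Complex.conj_im, Complex.one_re, Complex.one_im]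
  ring

lemma den_ne {w ξ : ℂ} (hw : w ∈ ball (0 : ℂ) 1) (hξ : ξ ∈ ball (0 : ℂ) 1) :
    ‖w - ξ‖ < ‖1 - (starRingEnd ℂ) ξ * w‖ := by
  have h1 := normSq_identity w ξ
  have h2 : ‖w‖ < 1 := by simpa using hw
  have h3 : ‖ξ‖ < 1 := by simpa using hξ
  have h4 : 0 < (1 - ‖ξ‖ ^ 2) * (1 - ‖w‖ ^ 2) := by
    have := norm_nonneg w
    have := norm_nonneg ξ
    apply mul_pos <;> nlinarith
  exact lt_of_pow_lt_pow_left₀ 2 (norm_nonneg _) (by linarith)

/-- Schwarz-Pick lemma -/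
lemma schwarz_pick {h : ℂ → ℂ} {ξ : ℂ} (hξ : ξ ∈ ball (0 : ℂ) 1)
    (hd : DifferentiableOn ℂ h (ball 0 1)) (hm : MapsTo h (ball 0 1) (ball 0 1)) (h0 : h 0 = ξ)
    {ζ : ℂ} (hζ : ζ ∈ ball (0 : ℂ) 1) :
    ‖h ζ - ξ‖ ≤ ‖ζ‖ * ‖1 - (starRingEnd ℂ) ξ * h ζ‖ := by
  set g : ℂ → ℂ := fun ζ => (h ζ - ξ) / (1 - (starRingEnd ℂ) ξ * h ζ) with hg
  have hden : ∀ ζ ∈ ball (0 : ℂ) 1, 0 < ‖1 - (starRingEnd ℂ) ξ * h ζ‖ := fun ζ hζ =>
    (norm_nonneg _).trans_lt (den_ne (hm hζ) hξ)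
  have hgd : DifferentiableOn ℂ g (ball 0 1) := by
    refine (hd.sub_const ξ).div ((hd.const_mul _).const_sub 1) ?_
    intro ζ hζ
    exact norm_pos_iff.1 (hden ζ hζ)
  have hgm : MapsTo g (ball 0 1) (closedBall 0 1) := by
    intro ζ hζ
    have h1 := den_ne (hm hζ) hξ
    rw [mem_closedBall_zero_iff, hg]
    simp only
    rw [norm_div, div_le_one (hden ζ hζ)]
    exact h1.le
  have hg0 : g 0 = 0 := by simp [hg, h0]
  have h1 := Complex.norm_le_norm_of_mapsTo_ball hgd hgm hg0 (by simpa using hζ)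
  have h2 : g ζ * (1 - (starRingEnd ℂ) ξ * h ζ) = h ζ - ξ := by
    rw [hg]
    exact div_mul_cancel₀ _ (norm_pos_iff.1 (hden ζ hζ))
  rw [← h2, norm_mul]
  gcongr

variable {M : Type*} [TopologicalSpace M]
  {Y : Type*} [NormedAddCommGroup Y] [NormedSpace ℝ Y]

lemma area_local (Λ : Lam M Y) (i : Λ.ι) {z₀ : ℂ} {t : Y} (ht : t ∈ Λ.W i) {δ : ℝ} (hδ : 0 < δ)
    (hball : ball z₀ δ ⊆ ball (0 : ℂ) 1) {φ : ℂ → M} {σ : ℂ → ℝ} (hu : Λ.IsUniv φ σ) {ξ : ℂ}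
    (hξ : ξ ∈ ball (0 : ℂ) 1) (hφξ : φ ξ = (Λ.box i).symm (z₀, t)) :
    ENNReal.ofReal (Λ.lo i * δ ^ 2) * volume (ball (0 : ℂ) (1 / 2)) ≤
      ∫⁻ ζ in hypBall ξ, ENNReal.ofReal (σ ζ) := by
  obtain ⟨h, hd, hm, h0, hlift⟩ := hu.lift i t ht z₀ δ hδ hball ξ hξ hφξ
  have htar : ∀ ζ ∈ ball (0 : ℂ) 1, (z₀ + δ * ζ, t) ∈ (Λ.box i).target := by
    intro ζ hζ
    refine Λ.mem_target ht (hball ?_)
    rw [mem_ball, dist_eq_norm, add_sub_cancel_left, norm_mul, Complex.norm_real,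
      Real.norm_of_nonneg hδ.le]
    have : ‖ζ‖ < 1 := by simpa using hζ
    nlinarith
  have hinj : InjOn h (ball 0 1) := by
    intro ζ hζ ζ' hζ' heq
    have h1 := (hlift ζ hζ).1
    have h2 := (hlift ζ' hζ').1
    rw [heq] at h1
    have h3 := (Λ.box i).symm.injOn (by simpa using htar ζ hζ) (by simpa using htar ζ' hζ')
      (h1.symm.trans h2)
    have h4 := congrArg Prod.fst h3
    simp only [add_right_inj] at h4
    exact mul_left_cancel₀ (by exact_mod_cast hδ.ne') h4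
  have hsub : ball (0 : ℂ) (1 / 2) ⊆ ball 0 1 := ball_subset_ball (by norm_num)
  have himg : h '' ball (0 : ℂ) (1 / 2) ⊆ hypBall ξ := by
    rintro _ ⟨ζ, hζ, rfl⟩
    refine ⟨hm (hsub hζ), ?_⟩
    have h1 := schwarz_pick hξ hd hm h0 (hsub hζ)
    refine h1.trans ?_
    have : ‖ζ‖ ≤ 1 / 2 := (by simpa using hζ : ‖ζ‖ < 1 / 2).le
    gcongr
  have hder : ∀ ζ ∈ ball (0 : ℂ) (1 / 2), HasFDerivWithinAt h
      (((ContinuousLinearMap.toSpanSingleton ℂ (deriv h ζ)).restrictScalars ℝ : ℂ →L[ℝ] ℂ))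
      (ball (0 : ℂ) (1 / 2)) ζ := by
    intro ζ hζ
    have h1 : DifferentiableAt ℂ h ζ := hd.differentiableAt (isOpen_ball.mem_nhds (hsub hζ))
    have h2 : HasFDerivAt h (ContinuousLinearMap.toSpanSingleton ℂ (deriv h ζ)) ζ :=
      h1.hasDerivAt.hasFDerivAt
    exact (h2.restrictScalars ℝ).hasFDerivWithinAt
  have hcv := lintegral_image_eq_lintegral_abs_det_fderiv_mul volume measurableSet_ball hder
    (hinj.mono hsub) (fun ζ => ENNReal.ofReal (σ ζ))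
  calc ENNReal.ofReal (Λ.lo i * δ ^ 2) * volume (ball (0 : ℂ) (1 / 2))
      = ∫⁻ _ in ball (0 : ℂ) (1 / 2), ENNReal.ofReal (Λ.lo i * δ ^ 2) := by
        rw [lintegral_const, Measure.restrict_apply MeasurableSet.univ, univ_inter]
    _ ≤ ∫⁻ ζ in ball (0 : ℂ) (1 / 2), ENNReal.ofReal |(((ContinuousLinearMap.toSpanSingleton ℂ
          (deriv h ζ)).restrictScalars ℝ : ℂ →L[ℝ] ℂ)).det| * ENNReal.ofReal (σ (h ζ)) := by
        refine setLIntegral_mono' measurableSet_ball fun ζ hζ => ?_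
        rw [Pool.Agent.H38.NevQ2.det_restrict, abs_of_nonneg (by positivity),
          ← ENNReal.ofReal_mul (by positivity), mul_comm (‖deriv h ζ‖ ^ 2), (hlift ζ (hsub hζ)).2]
        apply ENNReal.ofReal_le_ofReal
        have := Λ.ρ_lo i _ (htar ζ (hsub hζ))
        gcongr
    _ = ∫⁻ ζ in h '' ball (0 : ℂ) (1 / 2), ENNReal.ofReal (σ ζ) := hcv.symm
    _ ≤ ∫⁻ ζ in hypBall ξ, ENNReal.ofReal (σ ζ) := lintegral_mono_set himg

/-- Q5a. Area of hyperbolic balls. -/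
theorem area_lower (Λ : Lam M Y) : AreaStmt Λ := by
  intro K hK hKreg
  have key : ∃ c : ℝ, 0 < c ∧
      ∀ (φ : ℂ → M) (σ : ℂ → ℝ), Λ.IsUniv φ σ → ∀ ξ ∈ ball (0 : ℂ) 1, φ ξ ∈ K →
        ENNReal.ofReal c ≤ ∫⁻ ζ in hypBall ξ, ENNReal.ofReal (σ ζ) := by
    refine hK.induction_on (p := fun K => ∃ c : ℝ, 0 < c ∧
      ∀ (φ : ℂ → M) (σ : ℂ → ℝ), Λ.IsUniv φ σ → ∀ ξ ∈ ball (0 : ℂ) 1, φ ξ ∈ K →
        ENNReal.ofReal c ≤ ∫⁻ ζ in hypBall ξ, ENNReal.ofReal (σ ζ)) ?_ ?_ ?_ ?_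
    · exact ⟨1, one_pos, fun φ σ _ ξ _ h => absurd h (notMem_empty _)⟩
    · rintro s t hst ⟨c, hc, h⟩
      exact ⟨c, hc, fun φ σ hu ξ hξ h' => h φ σ hu ξ hξ (hst h')⟩
    · rintro s t ⟨c, hc, h⟩ ⟨c', hc', h'⟩
      refine ⟨min c c', lt_min hc hc', fun φ σ hu ξ hξ h'' => ?_⟩
      rcases h'' with h'' | h''
      · exact (ENNReal.ofReal_le_ofReal (min_le_left _ _)).trans (h φ σ hu ξ hξ h'')
      · exact (ENNReal.ofReal_le_ofReal (min_le_right _ _)).trans (h' φ σ hu ξ hξ h'')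
    · intro x hx
      obtain ⟨i, hi⟩ := mem_iUnion.1 (hKreg hx)
      have hz : (Λ.box i x).1 ∈ ball (0 : ℂ) 1 := by
        have := (Λ.box i).map_source hi
        rw [Λ.target_eq i] at this
        exact this.1
      have hz' : ‖(Λ.box i x).1‖ < 1 := by simpa using hz
      set δ : ℝ := (1 - ‖(Λ.box i x).1‖) / 2 with hδdef
      have hδ : 0 < δ := by rw [hδdef]; linarith
      have hcont : ContinuousAt (fun y => (Λ.box i y).1) x :=
        continuous_fst.continuousAt.comp ((Λ.box i).continuousAt hi)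
      have hN : {y | y ∈ (Λ.box i).source ∧ (Λ.box i y).1 ∈ ball (Λ.box i x).1 δ} ∈ 𝓝 x :=
        Filter.inter_mem ((Λ.box i).open_source.mem_nhds hi)
          (hcont (ball_mem_nhds _ hδ))
      have hlo := Λ.lo_pos i
      refine ⟨_, mem_nhdsWithin_of_mem_nhds hN, Λ.lo i * δ ^ 2 * (Real.pi / 4), by
        have := Real.pi_pos; positivity, ?_⟩
      rintro φ σ hu ξ hξ ⟨hys, hyb⟩
      have htW : (Λ.box i (φ ξ)).2 ∈ Λ.W i := by
        have := (Λ.box i).map_source hys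
        rw [Λ.target_eq i] at this
        exact this.2
      have hb : ball (Λ.box i (φ ξ)).1 δ ⊆ ball (0 : ℂ) 1 := by
        intro w hw
        rw [mem_ball, dist_eq_norm] at hw hyb
        rw [mem_ball, dist_zero_right]
        calc ‖w‖ = ‖(w - (Λ.box i (φ ξ)).1) + ((Λ.box i (φ ξ)).1 - (Λ.box i x).1)
              + (Λ.box i x).1‖ := by congr 1; ring
          _ ≤ ‖w - (Λ.box i (φ ξ)).1‖ + ‖(Λ.box i (φ ξ)).1 - (Λ.box i x).1‖
              + ‖(Λ.box i x).1‖ := norm_add₃_le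
          _ < 1 := by rw [hδdef] at hw hyb; linarith
      have h1 := area_local Λ i htW hδ hb hu hξ ((Λ.box i).left_inv hys).symm
      refine le_trans ?_ h1
      have h2 : volume (ball (0 : ℂ) (1 / 2)) = ENNReal.ofReal (Real.pi / 4) := by
        rw [Complex.volume_ball, ← ENNReal.ofReal_pow (by norm_num)]
        have : (NNReal.pi : ℝ≥0∞) = ENNReal.ofReal Real.pi := by
          rw [ENNReal.ofReal, Real.toNNReal_of_nonneg Real.pi_pos.le]
          rfl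
        rw [this, ← ENNReal.ofReal_mul (by norm_num)]
        congr 1
        ring
      rw [h2, ← ENNReal.ofReal_mul (by positivity)]
  exact key

end Pool.Agent.H63.Nev
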